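import Pool.Agent.Y898.Engine2

/-! Clusters of primes whose gaps are block sums of prescribed weights. -/

set_option autoImplicit false

namespace Pool.Agent.U437.DC

open Finset Filter Classical
open Pool.Agent.H256R2.SC (ff)

/-- the gap after the prime of index `n` -/
noncomputable def gap (n : ℕ) : ℕ := Nat.nth Nat.Prime (n + 1) - Nat.nth Nat.Prime n

theorem nth_lt (n : ℕ) : Nat.nth Nat.Prime n < Nat.nth Nat.Prime (n + 1) :=
  Nat.nth_strictMono Nat.infinite_setOfPred_prime (Nat.lt_succ_self n)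

theorem sum_gap (n i j : ℕ) (hij : i ≤ j) :
    ((∑ t ∈ Ico i j, gap (n + t) : ℕ) : ℤ) =
      (Nat.nth Nat.Prime (n + j) : ℤ) - Nat.nth Nat.Prime (n + i) := by
  induction j, hij using Nat.le_induction with
  | base => simp
  | succ j hj ih =>
    rw [Finset.sum_Ico_succ_top hj]
    push_cast
    push_cast at ih
    rw [ih]
    have h1 := (nth_lt (n + j)).le
    unfold gap
    rw [Nat.cast_sub h1]
    have h2 : n + j + 1 = n + (j + 1) := by ring
    rw [h2]
    ring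

/-- The primes `p_n, …, p_(n+k)` are at most `x`, the `k` gaps between them are at least `H` and at
most `C H`, and the gap before `p_n` is at least `c f(x)`. -/
def Cluster (c C x H : ℝ) (k n : ℕ) : Prop :=
  0 < n ∧ (Nat.nth Nat.Prime (n + k) : ℝ) ≤ x ∧
    c * ff x ≤ (Nat.nth Nat.Prime n : ℝ) - Nat.nth Nat.Prime (n - 1) ∧
    ∀ i < k, H ≤ (gap (n + i) : ℝ) ∧ (gap (n + i) : ℝ) ≤ C * H

theorem finite_of {x : ℝ} {k : ℕ} {S : Set ℕ}
    (h : ∀ n ∈ S, (Nat.nth Nat.Prime (n + k) : ℝ) ≤ x) : S.Finite := by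
  refine (Set.finite_Iic ⌊x⌋₊).subset ?_
  intro n hn
  refine Nat.le_floor (le_trans ?_ (h n hn))
  have h2 : n + k ≤ Nat.nth Nat.Prime (n + k) :=
    (Nat.nth_strictMono Nat.infinite_setOfPred_prime).le_apply
  exact_mod_cast (Nat.le_add_right n k).trans h2

theorem monoEng {k : ℕ} {a : ℕ → ℕ} (ha : ∀ i < k, a i < a (i + 1)) :
    ∀ i j, i ≤ j → j ≤ k → a i ≤ a j := by
  intro i j hij hj
  induction j, hij using Nat.le_induction with
  | base => exact le_rfl
  | succ j hj' ih => exact (ih (by omega)).trans (ha j (by omega)).le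

/-- the engine with bounded positive weights, at a real scale; the weights may depend on `B` -/
theorem engineB (k : ℕ) : ∃ K : ℕ, ∀ C : ℕ, ∃ c D : ℝ, 0 < c ∧ 0 < D ∧ ∀ᶠ x : ℝ in atTop,
    ∀ H : ℝ, 1 ≤ H → H ≤ c * ff x → ∃ B : ℕ, 0 < B ∧
    ∀ w : ℕ → ℕ, (∀ i < K, 0 < w i ∧ w i ≤ C) →
    ∀ Q : ℕ → Prop, (∀ n : ℕ, ∀ a : ℕ → ℕ, (∀ i < k, a i < a (i + 1)) → a k < K →
      (∀ i < k, gap (n + i) = B * ∑ j ∈ Ico (a i) (a (i + 1)), w j) → Q n) →
    x ^ (7 / 8 : ℝ) ≤ (Set.ncard {n : ℕ | Cluster c D x H k n ∧ Q n} : ℝ) := by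
  obtain ⟨K, hK⟩ := Pool.Agent.Y898.Engine2.engine2 k
  refine ⟨K, fun C => ?_⟩
  obtain ⟨c, hc, hx⟩ := hK C
  refine ⟨c / 2, 2 * K.factorial * (K * C + 1), by positivity, by positivity, ?_⟩
  filter_upwards [hx] with x hxx H hH hHc
  have hff : 0 ≤ ff x := by
    by_contra hneg
    push Not at hneg
    nlinarith
  obtain ⟨h, hh⟩ : ∃ h : ℕ, h = ⌈H⌉₊ := ⟨_, rfl⟩
  have hh1 : 1 ≤ h := by
    rw [hh]
    exact Nat.one_le_iff_ne_zero.2 (Nat.pos_iff_ne_zero.1 (Nat.ceil_pos.2 (by linarith)))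
  have hhH : H ≤ h := by
    rw [hh]
    exact Nat.le_ceil H
  have hh2 : (h : ℝ) ≤ 2 * H := by
    have h1 := Nat.ceil_lt_add_one (a := H) (by linarith)
    rw [← hh] at h1
    linarith
  have hhc : (h : ℝ) ≤ c * ff x := by linarith
  have hB : 0 < K.factorial * h := Nat.mul_pos (Nat.factorial_pos K) hh1
  refine ⟨K.factorial * h, hB, fun w hw Q hQ => ?_⟩
  refine (hxx h hh1 hhc w hw).trans ?_
  rw [Nat.cast_le, ← Set.ncard_coe_finset]
  refine Set.ncard_le_ncard ?_ (finite_of (k := k) fun n hn => hn.1.2.1)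
  intro n hn
  rw [mem_coe, mem_filter] at hn
  obtain ⟨-, hn0, h1, h2, a, ha, hak, hgap⟩ := hn
  have hgapr : ∀ i < k, gap (n + i) = K.factorial * h * ∑ j ∈ Ico (a i) (a (i + 1)), w j :=
    fun i hi => hgap i hi
  refine ⟨⟨hn0, h1, ?_, fun i hi => ?_⟩, hQ n a ha hak hgapr⟩
  · refine le_trans ?_ h2
    exact mul_le_mul_of_nonneg_right (by linarith) hff
  · have hm := monoEng ha (i + 1) k hi le_rfl
    have hcardK : ((Ico (a i) (a (i + 1))).card : ℕ) ≤ K := by
      rw [Nat.card_Ico]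
      omega
    have hlow : 1 ≤ ∑ j ∈ Ico (a i) (a (i + 1)), w j :=
      Nat.succ_le_of_lt (Finset.sum_pos (fun j hj => (hw j (by
        rw [Finset.mem_Ico] at hj
        omega)).1) (Finset.nonempty_Ico.2 (ha i hi)))
    have hup : ∑ j ∈ Ico (a i) (a (i + 1)), w j ≤ K * C := by
      calc ∑ j ∈ Ico (a i) (a (i + 1)), w j ≤ ∑ _j ∈ Ico (a i) (a (i + 1)), C :=
            sum_le_sum fun j hj => (hw j (by
              rw [Finset.mem_Ico] at hj
              omega)).2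
        _ = (Ico (a i) (a (i + 1))).card * C := by rw [sum_const, smul_eq_mul]
        _ ≤ K * C := Nat.mul_le_mul_right _ hcardK
    rw [hgapr i hi]
    have hK1 : (1 : ℝ) ≤ K.factorial := by exact_mod_cast Nat.factorial_pos K
    have hlow' : (1 : ℝ) ≤ ((∑ j ∈ Ico (a i) (a (i + 1)), w j : ℕ) : ℝ) := by exact_mod_cast hlow
    have hup' : ((∑ j ∈ Ico (a i) (a (i + 1)), w j : ℕ) : ℝ) ≤ K * C := by exact_mod_cast hup
    have hh0 : (0 : ℝ) ≤ h := Nat.cast_nonneg _
    rw [Nat.cast_mul, Nat.cast_mul]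
    constructor
    · calc H ≤ h := hhH
        _ = 1 * h * 1 := by ring
        _ ≤ K.factorial * h * ((∑ j ∈ Ico (a i) (a (i + 1)), w j : ℕ) : ℝ) :=
          mul_le_mul (mul_le_mul_of_nonneg_right hK1 hh0) hlow' zero_le_one (by positivity)
    · calc (K.factorial : ℝ) * h * ((∑ j ∈ Ico (a i) (a (i + 1)), w j : ℕ) : ℝ)
          ≤ K.factorial * (2 * H) * (K * C + 1) :=
            mul_le_mul (mul_le_mul_of_nonneg_left hh2 (by positivity)) (by linarith)
              (by positivity) (by positivity)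
        _ = 2 * K.factorial * (K * C + 1) * H := by ring

end Pool.Agent.U437.DC
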