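import Pool.Agent.U437.DC.Seq
import Pool.Agent.U437.DC.Eng

/-! Consecutive gaps between primes which follow a recursive divisibility rule. -/

set_option autoImplicit false

namespace Pool.Agent.U437.DC

open Finset Filter
open Pool.Agent.H256R2.SC (ff)

/-- **Recursive divisibility rules.** -/
theorem rule (k : ℕ) (R : List ℕ → ℕ) (hR : ∀ l, 0 < R l) :
    ∃ c C : ℝ, 0 < c ∧ 0 < C ∧ ∀ᶠ x : ℝ in atTop, ∀ H : ℝ, 1 ≤ H → H ≤ c * ff x →
      x ^ (7 / 8 : ℝ) ≤ (Set.ncard {n : ℕ | Cluster c C x H k n ∧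
        Follows R k (fun i => gap (n + i))} : ℝ) ∧
      x ^ (7 / 8 : ℝ) ≤ (Set.ncard {n : ℕ | Cluster c C x H k n ∧
        Follows R k (fun i => gap (n + (k - 1 - i)))} : ℝ) := by
  obtain ⟨K, hK⟩ := engineB k
  obtain ⟨w, hw, hwR⟩ := exists_w R hR K
  obtain ⟨c, D, hc, hD, hx⟩ := hK (∑ s ∈ range K, w s)
  refine ⟨c, D, hc, hD, ?_⟩
  filter_upwards [hx] with x hxx H hH hHc
  have hle : ∀ i < K, w i ≤ ∑ s ∈ range K, w s := fun i hi =>
    Finset.single_le_sum (f := w) (fun _ _ => Nat.zero_le _) (Finset.mem_range.2 hi)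
  obtain ⟨B, hB, hxB⟩ := hxx H hH hHc
  constructor
  · refine hxB w (fun i hi => ⟨hw i, hle i hi⟩) _ ?_
    intro n a ha hak hg
    exact follows_of hw hwR ha hak.le hB hg
  · refine hxB (fun s => w (K - 1 - s)) (fun i hi => ⟨hw _, hle _ (by omega)⟩) _ ?_
    intro n a ha hak hg
    exact follows_rev (g := fun i => gap (n + i)) hw hwR ha hak hB hg

end Pool.Agent.U437.DC
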