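import Mathlib

/-! Sequences all of whose block sums obey a recursive divisibility rule. -/

set_option autoImplicit false

namespace Pool.Agent.U437.DC

open Finset

/-- the first `i` block sums of `w` for the division `a 0 < a 1 < ...` -/
def bl (w a : ℕ → ℕ) (i : ℕ) : List ℕ :=
  (List.range i).map fun t => ∑ s ∈ Ico (a t) (a (t + 1)), w s

theorem mono_of {a : ℕ → ℕ} {i : ℕ} (h : ∀ t < i, a t < a (t + 1)) :
    ∀ u v, u ≤ v → v ≤ i → a u ≤ a v := by
  intro u v huv
  induction v, huv using Nat.le_induction with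
  | base => exact fun _ => le_rfl
  | succ v _ ih => exact fun hv => (ih (by omega)).trans (h v (by omega)).le

theorem index_le {a : ℕ → ℕ} {i : ℕ} (h : ∀ t < i, a t < a (t + 1)) : ∀ u ≤ i, u ≤ a u := by
  intro u
  induction u with
  | zero => exact fun _ => Nat.zero_le _
  | succ u ih =>
    intro hu
    have h1 := ih (by omega)
    have h2 := h u (by omega)
    omega

theorem bl_congr {w w' a a' : ℕ → ℕ} {i : ℕ} (ha : ∀ t ≤ i, a t = a' t)
    (hw : ∀ t < i, ∀ s, s < a (t + 1) → w s = w' s) : bl w a i = bl w' a' i := by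
  unfold bl
  apply List.map_congr_left
  intro t ht
  rw [List.mem_range] at ht
  rw [← ha t ht.le, ← ha (t + 1) ht]
  refine Finset.sum_congr rfl fun s hs => ?_
  exact hw t ht s (Finset.mem_Ico.1 hs).2

theorem exists_w (R : List ℕ → ℕ) (hR : ∀ l, 0 < R l) (K : ℕ) :
    ∃ w : ℕ → ℕ, (∀ s, 0 < w s) ∧ ∀ (i : ℕ) (a : ℕ → ℕ), (∀ t < i, a t < a (t + 1)) →
      ∀ s, a i ≤ s → s < K → R (bl w a i) ∣ w s := by
  induction K with
  | zero => exact ⟨fun _ => 1, fun _ => one_pos, fun _ _ _ s _ hs => absurd hs (Nat.not_lt_zero s)⟩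
  | succ K ih =>
    obtain ⟨w, hw, h⟩ := ih
    let ext : (Fin (K + 2) → Fin (K + 1)) → ℕ → ℕ := fun b t =>
      if ht : t < K + 2 then (b ⟨t, ht⟩ : ℕ) else 0
    obtain ⟨N, hN⟩ : ∃ N : ℕ, N = ∏ i ∈ range (K + 1), ∏ b : Fin (K + 2) → Fin (K + 1),
      R (bl w (ext b) i) := ⟨_, rfl⟩
    have hN0 : 0 < N := by
      rw [hN]
      exact Finset.prod_pos fun i _ => Finset.prod_pos fun b _ => hR _
    have hdvd : ∀ (i : ℕ) (a : ℕ → ℕ), (∀ t < i, a t < a (t + 1)) → a i ≤ K →
        R (bl w a i) ∣ N := by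
      intro i a ha hi
      have hiK : i ≤ K := (index_le ha i le_rfl).trans hi
      have hle : ∀ t ≤ i, a t ≤ K := fun t ht => (mono_of ha t i ht le_rfl).trans hi
      let b : Fin (K + 2) → Fin (K + 1) := fun t =>
        if ht : (t : ℕ) ≤ i then ⟨a t, Nat.lt_succ_of_le (hle t ht)⟩ else 0
      have hb : bl w a i = bl w (ext b) i := by
        apply bl_congr
        · intro t ht
          have h1 : t < K + 2 := by omega
          simp only [ext, b, h1, ht, dif_pos]
        · intro t _ s _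
          rfl
      rw [hb, hN]
      refine dvd_trans ?_ (Finset.dvd_prod_of_mem _ (Finset.mem_range.2 (Nat.lt_succ_of_le hiK)))
      exact Finset.dvd_prod_of_mem (fun b => R (bl w (ext b) i)) (Finset.mem_univ b)
    refine ⟨fun s => if s = K then N else w s, fun s => ?_, ?_⟩
    · beta_reduce
      split_ifs
      · exact hN0
      · exact hw s
    · intro i a ha s hs hsK
      have hbl : bl (fun s => if s = K then N else w s) a i = bl w a i := by
        apply bl_congr
        · intro t _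
          rfl
        · intro t ht u hu
          have h1 := mono_of ha (t + 1) i ht le_rfl
          have h2 : u ≠ K := by omega
          simp only [h2, if_false]
      rw [hbl]
      rcases Nat.lt_succ_iff_lt_or_eq.1 hsK with h1 | h1
      · have h2 : s ≠ K := by omega
        simp only [h2, if_false]
        exact h i a ha s hs h1
      · subst h1
        simp only [if_true]
        exact hdvd i a ha hs

/-- The numbers `g 0, ..., g (k - 1)` are `B v 0, ..., B v (k - 1)` with positive integers `v i` such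
that each `v i` is divisible by the value of `R` at the sequence `v 0, ..., v (i - 1)`. -/
def Follows (R : List ℕ → ℕ) (k : ℕ) (g : ℕ → ℕ) : Prop :=
  ∃ (B : ℕ) (v : ℕ → ℕ), 0 < B ∧
    ∀ i < k, g i = B * v i ∧ 0 < v i ∧ R ((List.range i).map v) ∣ v i

theorem follows_of {R : List ℕ → ℕ} {w : ℕ → ℕ} {K : ℕ} (hw : ∀ s, 0 < w s)
    (h : ∀ (i : ℕ) (a : ℕ → ℕ), (∀ t < i, a t < a (t + 1)) →
      ∀ s, a i ≤ s → s < K → R (bl w a i) ∣ w s) {k : ℕ} {a : ℕ → ℕ}
    (ha : ∀ t < k, a t < a (t + 1)) (hak : a k ≤ K) {B : ℕ} (hB : 0 < B) {g : ℕ → ℕ}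
    (hg : ∀ i < k, g i = B * ∑ s ∈ Ico (a i) (a (i + 1)), w s) : Follows R k g := by
  refine ⟨B, fun i => ∑ s ∈ Ico (a i) (a (i + 1)), w s, hB, fun i hi => ⟨hg i hi, ?_, ?_⟩⟩
  · exact Finset.sum_pos (fun s _ => hw s) (Finset.nonempty_Ico.2 (ha i hi))
  · refine Finset.dvd_sum fun s hs => ?_
    rw [Finset.mem_Ico] at hs
    have h1 := mono_of ha (i + 1) k hi le_rfl
    exact h i a (fun t ht => ha t (by omega)) s hs.1 (by omega)

theorem sum_rev {w : ℕ → ℕ} {K a b : ℕ} (hab : a ≤ b) (hb : b ≤ K) :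
    ∑ s ∈ Ico a b, w (K - 1 - s) = ∑ s ∈ Ico (K - b) (K - a), w s := by
  refine Finset.sum_bij' (fun s _ => K - 1 - s) (fun s _ => K - 1 - s) ?_ ?_ ?_ ?_ ?_
  · intro s hs
    rw [Finset.mem_Ico] at hs ⊢
    omega
  · intro s hs
    rw [Finset.mem_Ico] at hs ⊢
    omega
  · intro s hs
    rw [Finset.mem_Ico] at hs
    omega
  · intro s hs
    rw [Finset.mem_Ico] at hs
    omega
  · intro s _
    rfl

theorem follows_rev {R : List ℕ → ℕ} {w : ℕ → ℕ} {K : ℕ} (hw : ∀ s, 0 < w s)
    (h : ∀ (i : ℕ) (a : ℕ → ℕ), (∀ t < i, a t < a (t + 1)) →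
      ∀ s, a i ≤ s → s < K → R (bl w a i) ∣ w s) {k : ℕ} {a : ℕ → ℕ}
    (ha : ∀ t < k, a t < a (t + 1)) (hak : a k < K) {B : ℕ} (hB : 0 < B) {g : ℕ → ℕ}
    (hg : ∀ i < k, g i = B * ∑ s ∈ Ico (a i) (a (i + 1)), w (K - 1 - s)) :
    Follows R k (fun i => g (k - 1 - i)) := by
  refine follows_of (a := fun t => K - a (k - t)) hw h ?_ ?_ hB ?_
  · intro t ht
    have h1 := ha (k - (t + 1)) (by omega)
    have h2 : k - (t + 1) + 1 = k - t := by omega
    rw [h2] at h1
    have h3 := mono_of ha (k - t) k (by omega) le_rfl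
    change K - a (k - t) < K - a (k - (t + 1))
    omega
  · exact Nat.sub_le _ _
  · intro i hi
    have h1 := mono_of ha (k - 1 - i + 1) k (by omega) le_rfl
    rw [hg (k - 1 - i) (by omega), sum_rev (ha _ (by omega)).le (by omega)]
    have h2 : k - 1 - i + 1 = k - i := by omega
    have h3 : k - (i + 1) = k - 1 - i := by omega
    rw [h2, h3]

/-! ### Divisibility of the block sums -/

/-- the factor of a block -/
def fac (A : ℕ) (L : List ℕ) (i j : ℕ) : ℕ :=
  if A * ∑ t ∈ Ico i j, L.getD t 0 = 0 then 1 else A * ∑ t ∈ Ico i j, L.getD t 0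

/-- the product of all block sums of `L`, with the factor `A` -/
def RR (A : ℕ) (L : List ℕ) : ℕ :=
  ∏ i ∈ range (L.length + 1), ∏ j ∈ range (L.length + 1), fac A L i j

theorem RR_pos (A : ℕ) (L : List ℕ) : 0 < RR A L := by
  refine Finset.prod_pos fun i _ => Finset.prod_pos fun j _ => ?_
  unfold fac
  split_ifs with h
  · exact one_pos
  · exact Nat.pos_of_ne_zero h

theorem dvd_RR {A : ℕ} (hA : 0 < A) {v : ℕ → ℕ} {t : ℕ} (hv : ∀ s < t, 0 < v s) {i j : ℕ}
    (hij : i < j) (hj : j ≤ t) : A * ∑ s ∈ Ico i j, v s ∣ RR A ((List.range t).map v) := by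
  have hlen : ((List.range t).map v).length = t := by simp
  have hsum : ∑ s ∈ Ico i j, ((List.range t).map v).getD s 0 = ∑ s ∈ Ico i j, v s := by
    refine Finset.sum_congr rfl fun s hs => ?_
    rw [Finset.mem_Ico] at hs
    rw [List.getD_eq_getElem _ _ (by rw [hlen]; omega), List.getElem_map, List.getElem_range]
  have hpos : 0 < A * ∑ s ∈ Ico i j, v s :=
    Nat.mul_pos hA (Finset.sum_pos (fun s hs => hv s (by
      rw [Finset.mem_Ico] at hs
      omega)) (Finset.nonempty_Ico.2 hij))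
  have hfac : fac A ((List.range t).map v) i j = A * ∑ s ∈ Ico i j, v s := by
    unfold fac
    rw [hsum, if_neg hpos.ne']
  rw [← hfac]
  unfold RR
  rw [hlen]
  refine dvd_trans ?_ (Finset.dvd_prod_of_mem _ (Finset.mem_range.2 (by omega : i < t + 1)))
  exact Finset.dvd_prod_of_mem (fun j => fac A ((List.range t).map v) i j)
    (Finset.mem_range.2 (by omega))

/-- all block sums divide the later ones -/
theorem blocks_dvd {A k : ℕ} (hA : 0 < A) {g : ℕ → ℕ} (h : Follows (RR A) k g) {i j l : ℕ}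
    (hij : i < j) (_hjl : j < l) (hl : l ≤ k) :
    A * ∑ t ∈ Ico i j, g t ∣ ∑ t ∈ Ico j l, g t := by
  obtain ⟨B, v, -, h⟩ := h
  have e1 : ∑ t ∈ Ico i j, g t = B * ∑ t ∈ Ico i j, v t := by
    rw [Finset.mul_sum]
    refine Finset.sum_congr rfl fun t ht => ?_
    rw [Finset.mem_Ico] at ht
    exact (h t (by omega)).1
  rw [e1]
  refine Finset.dvd_sum fun t ht => ?_
  rw [Finset.mem_Ico] at ht
  rw [(h t (by omega)).1, show A * (B * ∑ t ∈ Ico i j, v t) = B * (A * ∑ t ∈ Ico i j, v t) by ring]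
  refine mul_dvd_mul_left B ?_
  exact (dvd_RR hA (fun s hs => (h s (by omega)).2.1) hij ht.1).trans (h t (by omega)).2.2

end Pool.Agent.U437.DC
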